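import Pool.Agent.Y228.RR.Mot
import Pool.Agent.TH187.SA.Classes

set_option autoImplicit false
set_option linter.unusedSectionVars false
set_option linter.unusedVariables false

/-! # The denominators which belong to the components of strata with a nonzero class -/

namespace Pool.Agent.X303.MC

open Pool.Agent.W574.SM Pool.Agent.W574.LM Pool.Agent.W574.HS Pool.Agent.TH192.DT
  Pool.Agent.H628R4.TP Pool.Agent.TH187.SA Pool.Agent.Y231.RF Pool.Agent.Y228.RR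

/-- the pairs `(-ν_i, N_i)` of the components which occur in a set `J` with `c J ≠ 0` -/
theorem exists_occ {ι R : Type} [Fintype ι] [CommRing R] (u : Rˣ) (ν N : ι → ℕ)
    (c : Finset {i // 0 < N i} → R) :
    ∃ P : Finset (ℤ × ℤ), (∀ q, q ∈ P ↔ ∃ i : {i // 0 < N i}, (∃ J, c J ≠ 0 ∧ i ∈ J) ∧
      q = (-(ν i.1 : ℤ), (N i.1 : ℤ))) ∧ dlZ u ν N c ∈ ratU u (P : Set (ℤ × ℤ)) := by
  classical
  refine ⟨(Finset.univ.filter fun i : {i // 0 < N i} => ∃ J, c J ≠ 0 ∧ i ∈ J).image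
    fun i => (-(ν i.1 : ℤ), (N i.1 : ℤ)), fun q => ?_, ?_⟩
  · constructor
    · intro h
      obtain ⟨i, hi, rfl⟩ := Finset.mem_image.1 h
      exact ⟨i, (Finset.mem_filter.1 hi).2, rfl⟩
    · rintro ⟨i, hi, rfl⟩
      exact Finset.mem_image.2 ⟨i, Finset.mem_filter.2 ⟨Finset.mem_univ i, hi⟩, rfl⟩
  · refine Subalgebra.sum_mem _ fun I _ => ?_
    by_cases hc : c I = 0
    · rw [hc, map_zero, zero_mul]
      exact Subalgebra.zero_mem _
    have hX : (PowerSeries.X : PowerSeries R) ∈ ratU u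
        (((Finset.univ.filter fun i : {i // 0 < N i} => ∃ J, c J ≠ 0 ∧ i ∈ J).image
          fun i => (-(ν i.1 : ℤ), (N i.1 : ℤ)) : Finset (ℤ × ℤ)) : Set (ℤ × ℤ)) :=
      Algebra.subset_adjoin (Or.inl rfl)
    have hg : ∀ i ∈ I, geoU u (-(ν i.1 : ℤ)) (N i.1) ∈ ratU u
        (((Finset.univ.filter fun i : {i // 0 < N i} => ∃ J, c J ≠ 0 ∧ i ∈ J).image
          fun i => (-(ν i.1 : ℤ), (N i.1 : ℤ)) : Finset (ℤ × ℤ)) : Set (ℤ × ℤ)) := by
      intro i hi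
      have hm : (-(ν i.1 : ℤ), (N i.1 : ℤ)) ∈
          (((Finset.univ.filter fun i : {i // 0 < N i} => ∃ J, c J ≠ 0 ∧ i ∈ J).image
            fun i => (-(ν i.1 : ℤ), (N i.1 : ℤ)) : Finset (ℤ × ℤ)) : Set (ℤ × ℤ)) :=
        Finset.mem_coe.2 (Finset.mem_image.2 ⟨i, Finset.mem_filter.2
          ⟨Finset.mem_univ i, I, hc, hi⟩, rfl⟩)
      exact Algebra.subset_adjoin (Or.inr ⟨(-(ν i.1 : ℤ), (N i.1 : ℤ)), hm, rfl⟩)
    exact Subalgebra.mul_mem _ (Subalgebra.algebraMap_mem _ (c I))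
      (Subalgebra.prod_mem _ fun i hi => Subalgebra.mul_mem _ (Subalgebra.mul_mem _
        (Subalgebra.algebraMap_mem _ _) (Subalgebra.pow_mem _ hX _)) (hg i hi))

variable {σ T : Type} [Fintype σ] [DecidableEq σ] [Fintype T] [DecidableEq T] {κ : T → Type}
  [∀ t, Fintype (κ t)] [∀ t, DecidableEq (κ t)]

/-- Rees products, global functional equations -/
theorem rees_global {I : Type} [Fintype I] (g : (t : T) → κ t → MvPolynomial σ ℂ)
    (hg : ∀ t, ∃ j, g t j ≠ 0) (a : T → ℕ) (k : I → ℕ) (m : I → T → ℕ) {R : Type} [CommRing R]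
    (u : Rˣ) (c : Finset {x // 0 < mulR a m x} → R)
    (hE : ∀ (i : I) (hi : 0 < ∑ t, a t * m i t), (∃ J, c J ≠ 0 ∧ ⟨Sum.inl i, hi⟩ ∈ J) →
      FromRees g a 1 (k i + 1) (∑ t, a t * m i t)) :
    ∃ P : Finset (ℤ × ℤ), (∀ q ∈ P, q.1 < 0 ∧ 0 < q.2 ∧
      ∀ b : Polynomial ℂ, IsBFunction (powProd a g) b → b.eval ((q.1 : ℂ) / q.2) = 0) ∧
      dlZ u (nuR k T) (mulR a m) c ∈ ratU u (P : Set (ℤ × ℤ)) := by
  obtain ⟨P, hP, h⟩ := exists_occ u (nuR k T) (mulR a m) c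
  refine ⟨P, fun q hq => ?_, h⟩
  obtain ⟨⟨x, hx⟩, hJ, rfl⟩ := (hP q).1 hq
  refine ⟨?_, ?_, fun b hb => ?_⟩
  · have h1 := nuR_pos (T := T) k x
    change -((nuR k T x : ℕ) : ℤ) < 0
    omega
  · change (0 : ℤ) < (mulR a m x : ℕ)
    exact_mod_cast hx
  · rcases x with i | t
    · have hi : 0 < ∑ t, a t * m i t := hx
      have ha : ∃ t, a t ≠ 0 := by
        obtain ⟨t, _, ht⟩ := Finset.exists_ne_zero_of_sum_ne_zero hi.ne'
        exact ⟨t, left_ne_zero_of_mul ht⟩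
      obtain ⟨H, hH, hHb⟩ := locEq_global a g b hb ha
      have h := root_of_from a g b H hHb _ _ hi ((hE i hi hJ).congr hH)
      have h2 : b.eval (-((nuR k T (Sum.inl i) : ℕ) : ℂ) / (mulR a m (Sum.inl i) : ℕ)) = 0 := h
      push_cast at h2 ⊢
      exact h2
    · have ht : 0 < a t := hx
      have h := (powData_global a g hg b hb).strict t 0 ht
      rw [Nat.cast_zero, add_zero] at h
      have h2 : b.eval (-((nuR k T (Sum.inr t) : ℕ) : ℂ) / (mulR a m (Sum.inr t) : ℕ)) = 0 := by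
        change b.eval (-((1 : ℕ) : ℂ) / (a t : ℕ)) = 0
        rw [Nat.cast_one]
        exact h
      push_cast at h2 ⊢
      exact h2

/-- Rees products, local functional equations at the origin -/
theorem rees_local {I : Type} [Fintype I] (g : (t : T) → κ t → MvPolynomial σ ℂ)
    (hg : ∀ t, ∃ j, g t j ≠ 0) (a : T → ℕ) (k : I → ℕ) (m : I → T → ℕ) {R : Type} [CommRing R]
    (u : Rˣ) (c : Finset {x // 0 < mulR a m x} → R)
    (hE : ∀ (i : I) (hi : 0 < ∑ t, a t * m i t), (∃ J, c J ≠ 0 ∧ ⟨Sum.inl i, hi⟩ ∈ J) →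
      ∀ H : MvPolynomial σ ℂ, MvPolynomial.constantCoeff H ≠ 0 →
        FromRees g a H (k i + 1) (∑ t, a t * m i t)) :
    ∃ P : Finset (ℤ × ℤ), (∀ q ∈ P, q.1 < 0 ∧ 0 < q.2 ∧
      ∀ b : Polynomial ℂ, IsLocalBFunction (powProd a g) b → b.eval ((q.1 : ℂ) / q.2) = 0) ∧
      dlZ u (nuR k T) (mulR a m) c ∈ ratU u (P : Set (ℤ × ℤ)) := by
  obtain ⟨P, hP, h⟩ := exists_occ u (nuR k T) (mulR a m) c
  refine ⟨P, fun q hq => ?_, h⟩
  obtain ⟨⟨x, hx⟩, hJ, rfl⟩ := (hP q).1 hq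
  refine ⟨?_, ?_, fun b hb => ?_⟩
  · have h1 := nuR_pos (T := T) k x
    change -((nuR k T x : ℕ) : ℤ) < 0
    omega
  · change (0 : ℤ) < (mulR a m x : ℕ)
    exact_mod_cast hx
  · rcases x with i | t
    · have hi : 0 < ∑ t, a t * m i t := hx
      have ha : ∃ t, a t ≠ 0 := by
        obtain ⟨t, _, ht⟩ := Finset.exists_ne_zero_of_sum_ne_zero hi.ne'
        exact ⟨t, left_ne_zero_of_mul ht⟩
      obtain ⟨H, hH, hHb⟩ := (powData_local a g hg b hb).ideal ha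
      have h := root_of_from a g b H hHb _ _ hi (hE i hi hJ H hH)
      have h2 : b.eval (-((nuR k T (Sum.inl i) : ℕ) : ℂ) / (mulR a m (Sum.inl i) : ℕ)) = 0 := h
      push_cast at h2 ⊢
      exact h2
    · have ht : 0 < a t := hx
      have h := (powData_local a g hg b hb).strict t 0 ht
      rw [Nat.cast_zero, add_zero] at h
      have h2 : b.eval (-((nuR k T (Sum.inr t) : ℕ) : ℂ) / (mulR a m (Sum.inr t) : ℕ)) = 0 := by
        change b.eval (-((1 : ℕ) : ℂ) / (a t : ℕ)) = 0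
        rw [Nat.cast_one]
        exact h
      push_cast at h2 ⊢
      exact h2

end Pool.Agent.X303.MC
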