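import Pool.Agent.X303.MC.PadicDefs
import Pool.Agent.TH192.PA.Final

set_option autoImplicit false
set_option linter.unusedSectionVars false
set_option linter.unusedVariables false

/-! # The orders of the poles of Denef's formula -/

namespace Pool.Agent.X303.MC

open Polynomial Pool.Agent.W427.SMC Pool.Agent.TH192.PA

variable (q : ℕ) [Fact q.Prime]

/-- the order of the pole of `F` at the points with `q ^ (-s) = T0` is at most `M` -/
def PLE (F : ℂ → ℂ) (T0 : ℂ) (M : ℕ) : Prop :=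
  ∃ Q P : ℂ[X], Q.eval T0 ≠ 0 ∧
    ∀ s : ℝ, 0 < s → ((X - C T0) ^ M * Q).eval (pw q s) * F s = P.eval (pw q s)

variable {q}

theorem PLE.mono {F : ℂ → ℂ} {T0 : ℂ} {M N : ℕ} (h : PLE q F T0 M) (hMN : M ≤ N) :
    PLE q F T0 N := by
  obtain ⟨Q, P, hQ, h⟩ := h
  refine ⟨Q, (X - C T0) ^ (N - M) * P, hQ, fun s hs => ?_⟩
  rw [eval_mul (p := (X - C T0) ^ (N - M)) (q := P), ← h s hs, ← mul_assoc, ← eval_mul,
    ← mul_assoc, ← pow_add, Nat.sub_add_cancel hMN]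

theorem PLE.add {F G : ℂ → ℂ} {T0 : ℂ} {M : ℕ} (h1 : PLE q F T0 M) (h2 : PLE q G T0 M) :
    PLE q (fun s => F s + G s) T0 M := by
  obtain ⟨Q1, P1, hQ1, h1⟩ := h1
  obtain ⟨Q2, P2, hQ2, h2⟩ := h2
  refine ⟨Q1 * Q2, P1 * Q2 + P2 * Q1, by rw [eval_mul]; exact mul_ne_zero hQ1 hQ2,
    fun s hs => ?_⟩
  rw [eval_add, eval_mul (p := P1), eval_mul (p := P2), ← h1 s hs, ← h2 s hs]
  simp only [eval_mul]
  ring

theorem PLE.mul {F G : ℂ → ℂ} {T0 : ℂ} {M1 M2 : ℕ} (h1 : PLE q F T0 M1) (h2 : PLE q G T0 M2) :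
    PLE q (fun s => F s * G s) T0 (M1 + M2) := by
  obtain ⟨Q1, P1, hQ1, h1⟩ := h1
  obtain ⟨Q2, P2, hQ2, h2⟩ := h2
  refine ⟨Q1 * Q2, P1 * P2, by rw [eval_mul]; exact mul_ne_zero hQ1 hQ2, fun s hs => ?_⟩
  rw [eval_mul (p := P1), ← h1 s hs, ← h2 s hs, pow_add]
  simp only [eval_mul]
  ring

theorem ple_const (c : ℂ) (T0 : ℂ) (M : ℕ) : PLE q (fun _ => c) T0 M := by
  refine (show PLE q (fun _ => c) T0 0 from ⟨1, C c, by simp, fun s hs => ?_⟩).mono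
    (Nat.zero_le _)
  simp

theorem ple_sum {K : Type} (t : Finset K) (F : K → ℂ → ℂ) (T0 : ℂ) (M : ℕ)
    (h : ∀ k ∈ t, PLE q (F k) T0 M) : PLE q (fun s => ∑ k ∈ t, F k s) T0 M := by
  classical
  induction t using Finset.induction_on with
  | empty =>
    simp only [Finset.sum_empty]
    exact ple_const 0 T0 M
  | insert k t hk ih =>
    have h1 := (h k (Finset.mem_insert_self _ _)).add
      (ih fun j hj => h j (Finset.mem_insert_of_mem hj))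
    have h2 : (fun s => F k s + ∑ k ∈ t, F k s) = fun s => ∑ k ∈ insert k t, F k s := by
      funext s
      rw [Finset.sum_insert hk]
    rwa [h2] at h1

theorem ple_prod {K : Type} (t : Finset K) (F : K → ℂ → ℂ) (T0 : ℂ) (M : K → ℕ)
    (h : ∀ k ∈ t, PLE q (F k) T0 (M k)) :
    PLE q (fun s => ∏ k ∈ t, F k s) T0 (∑ k ∈ t, M k) := by
  classical
  induction t using Finset.induction_on with
  | empty =>
    simp only [Finset.prod_empty, Finset.sum_empty]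
    exact ple_const 1 T0 0
  | insert k t hk ih =>
    have h1 := (h k (Finset.mem_insert_self _ _)).mul
      (ih fun j hj => h j (Finset.mem_insert_of_mem hj))
    have h2 : (fun s => F k s * ∏ k ∈ t, F k s) = fun s => ∏ k ∈ insert k t, F k s := by
      funext s
      rw [Finset.prod_insert hk]
    rw [h2] at h1
    rwa [Finset.sum_insert hk]

theorem qpow (N ν : ℕ) (s : ℝ) :
    (q : ℂ) ^ (-((N : ℂ) * (s : ℂ) + (ν : ℂ))) = pw q s ^ N * ((q : ℂ) ^ ν)⁻¹ := by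
  have hq0 : (q : ℂ) ≠ 0 := by exact_mod_cast (Fact.out : q.Prime).ne_zero
  have hlog : Complex.log (q : ℂ) = ((Real.log q : ℝ) : ℂ) := by
    rw [← Complex.ofReal_natCast, ← Complex.ofReal_log (Nat.cast_nonneg _)]
  rw [Complex.cpow_def_of_ne_zero hq0, hlog]
  unfold pw
  rw [← Complex.exp_nat_mul]
  have h1 : ((q : ℂ) ^ ν)⁻¹ = Complex.exp (-((ν : ℂ) * ((Real.log q : ℝ) : ℂ))) := by
    rw [Complex.exp_neg, Complex.exp_nat_mul]
    congr 2
    rw [← hlog, Complex.exp_log hq0]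
  rw [h1, ← Complex.exp_add]
  congr 1
  ring

theorem norm_pw_lt (s : ℝ) (hs : 0 < s) : ‖pw q s‖ < 1 := by
  unfold pw
  rw [Complex.norm_exp]
  have h1 : (-((s : ℂ) * ((Real.log q : ℝ) : ℂ))).re = -(s * Real.log q) := by
    rw [← Complex.ofReal_mul, Complex.neg_re, Complex.ofReal_re]
  rw [h1, Real.exp_lt_one_iff]
  have := log_p_pos q
  have := mul_pos hs this
  linarith

theorem ple_geo (N ν : ℕ) (hν : 0 < ν) (T0 : ℂ) :
    PLE q (fun s => ((q : ℂ) - 1) * (q : ℂ) ^ (-((N : ℂ) * s + (ν : ℂ))) /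
      (1 - (q : ℂ) ^ (-((N : ℂ) * s + (ν : ℂ))))) T0
      (if 0 < N ∧ T0 ^ N = ((q ^ ν : ℕ) : ℂ) then 1 else 0) := by
  have hq1 : 1 < q := (Fact.out : q.Prime).one_lt
  have hq0 : (q : ℂ) ≠ 0 := by exact_mod_cast (Fact.out : q.Prime).ne_zero
  set D : ℂ[X] := C ((q ^ ν : ℕ) : ℂ) - X ^ N with hD
  have hne : D ≠ 0 := fac_ne q ν N hq1 hν
  obtain ⟨Q, hQ, hnd⟩ := exists_eq_pow_rootMultiplicity_mul_and_not_dvd D hne T0
  have key : PLE q (fun s => ((q : ℂ) - 1) * (q : ℂ) ^ (-((N : ℂ) * s + (ν : ℂ))) /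
      (1 - (q : ℂ) ^ (-((N : ℂ) * s + (ν : ℂ))))) T0 (D.rootMultiplicity T0) := by
    refine ⟨Q, C ((q : ℂ) - 1) * X ^ N, fun h => hnd (dvd_iff_isRoot.2 h), fun s hs => ?_⟩
    rw [← hQ, hD]
    simp only [eval_sub, eval_C, eval_pow, eval_X, eval_mul]
    rw [qpow]
    have hqν : ((q : ℂ) ^ ν) ≠ 0 := pow_ne_zero _ hq0
    have h1 : (q : ℂ) ^ ν - pw q s ^ N ≠ 0 := by
      intro h
      have h2 : ‖(q : ℂ) ^ ν‖ = ‖pw q s ^ N‖ := by rw [sub_eq_zero.1 h]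
      rw [norm_pow, norm_pow, Complex.norm_natCast] at h2
      have h3 : (1 : ℝ) < (q : ℝ) ^ ν := one_lt_pow₀ (by exact_mod_cast hq1) hν.ne'
      have h4 : ‖pw q s‖ ^ N ≤ 1 := pow_le_one₀ (norm_nonneg _) (norm_pw_lt s hs).le
      linarith
    have h5 : 1 - pw q s ^ N * ((q : ℂ) ^ ν)⁻¹ ≠ 0 := by
      intro h
      apply h1
      have h6 := congrArg (fun z => (q : ℂ) ^ ν * z) h
      simp only [mul_zero] at h6
      rw [mul_sub, mul_one, mul_comm (pw q s ^ N), ← mul_assoc, mul_inv_cancel₀ hqν, one_mul] at h6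
      exact h6
    push_cast
    field_simp
  refine key.mono ?_
  exact fac_rm q ν N hq1 hν T0

theorem denef_ple {J : Type} [Fintype J] (ν N : J → ℕ) (hν : ∀ i, 0 < ν i) (c : Finset J → ℂ)
    (T0 : ℂ) (M : ℕ)
    (hM : ∀ S, c S ≠ 0 → Nat.card {i // i ∈ S ∧ 0 < N i ∧ T0 ^ N i = ((q ^ ν i : ℕ) : ℂ)} ≤ M) :
    PLE q (denefF q ν N c) T0 M := by
  classical
  refine ple_sum Finset.univ (fun S s => c S * ∏ i ∈ S, ((q : ℂ) - 1) *
    (q : ℂ) ^ (-((N i : ℂ) * s + (ν i : ℂ))) /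
      (1 - (q : ℂ) ^ (-((N i : ℂ) * s + (ν i : ℂ))))) T0 M fun S _ => ?_
  by_cases hc : c S = 0
  · simp only [hc, zero_mul]
    exact ple_const 0 T0 M
  have h1 := ple_prod S (fun i s => ((q : ℂ) - 1) * (q : ℂ) ^ (-((N i : ℂ) * s + (ν i : ℂ))) /
    (1 - (q : ℂ) ^ (-((N i : ℂ) * s + (ν i : ℂ))))) T0
    (fun i => if 0 < N i ∧ T0 ^ N i = ((q ^ ν i : ℕ) : ℂ) then 1 else 0)
    fun i _ => ple_geo (N i) (ν i) (hν i) T0
  refine ((ple_const (c S) T0 0).mul h1).mono ?_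
  rw [Nat.zero_add, ← Finset.sum_filter, Finset.sum_const, smul_eq_mul, mul_one]
  refine le_trans (le_of_eq ?_) (hM S hc)
  rw [Nat.card_eq_fintype_card, Fintype.card_subtype]
  congr 1
  ext i
  simp only [Finset.mem_filter, Finset.mem_univ, true_and]

/-- a function with a bound of this kind -/
theorem order_of_ple {F Z : ℂ → ℂ} {M : ℕ} {s0 : ℂ} (h : PLE q F (pw q s0) M)
    (hZ : MeromorphicOn Z Set.univ) (hI : ∀ s : ℂ, 0 < s.re → Z s = F s) :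
    ((-(M : ℤ) : ℤ) : WithTop ℤ) ≤ meromorphicOrderAt Z s0 := by
  obtain ⟨Q, P, hQ, h⟩ := h
  have hQ0 : Q ≠ 0 := by
    rintro rfl
    exact hQ (by simp)
  have hX : (X - C (pw q s0) : ℂ[X]) ^ M ≠ 0 := pow_ne_zero _ (X_sub_C_ne_zero _)
  have h1 := mero_bound q ((X - C (pw q s0)) ^ M * Q) P (mul_ne_zero hX hQ0) Z hZ
    (fun s hs => by rw [hI s (by simpa using hs)]; exact h s hs) s0
  have h2 : ((X - C (pw q s0)) ^ M * Q).rootMultiplicity (pw q s0) = M := by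
    rw [rootMultiplicity_mul (mul_ne_zero hX hQ0), rootMultiplicity_X_sub_C_pow,
      rootMultiplicity_eq_zero hQ, add_zero]
  rwa [h2] at h1

/-- **The orders of the poles.** -/
theorem denef_order {J : Type} [Fintype J] (ν N : J → ℕ) (hν : ∀ i, 0 < ν i)
    (c : Finset J → ℂ) (Z : ℂ → ℂ) (hZ : MeromorphicOn Z Set.univ)
    (hI : ∀ s : ℂ, 0 < s.re → Z s = denefF q ν N c s) (s0 : ℂ) (M : ℕ)
    (hM : ∀ S, c S ≠ 0 → Nat.card {i // i ∈ S ∧ 0 < N i ∧ s0.re = -((ν i : ℝ) / N i)} ≤ M) :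
    ((-(M : ℤ) : ℤ) : WithTop ℤ) ≤ meromorphicOrderAt Z s0 := by
  classical
  refine order_of_ple (denef_ple ν N hν c _ M fun S hS => le_trans ?_ (hM S hS)) hZ hI
  refine Nat.card_mono (Set.toFinite _) ?_
  rintro i ⟨h1, h2, h3⟩
  refine ⟨h1, h2, ?_⟩
  rw [← pw_norm q s0]
  exact norm_of_pow q (ν i) (N i) (Fact.out : q.Prime).one_lt h2 _ h3

/-- **Every pole comes from a component of a stratum which occurs.** -/
theorem denef_pole {J : Type} [Fintype J] (ν N : J → ℕ) (hν : ∀ i, 0 < ν i)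
    (c : Finset J → ℂ) (Z : ℂ → ℂ) (hZ : MeromorphicOn Z Set.univ)
    (hI : ∀ s : ℂ, 0 < s.re → Z s = denefF q ν N c s) (s0 : ℂ)
    (hs0 : meromorphicOrderAt Z s0 < 0) :
    ∃ S, c S ≠ 0 ∧ ∃ i ∈ S, 0 < N i ∧ s0.re = -((ν i : ℝ) / N i) := by
  by_contra hcon
  push Not at hcon
  have h := denef_order ν N hν c Z hZ hI s0 0 fun S hS => by
    rw [Nat.le_zero, Nat.card_eq_zero]
    left
    exact ⟨fun i => hcon S hS i.1 i.2.1 i.2.2.1 i.2.2.2⟩
  have h1 : ((-((0 : ℕ) : ℤ) : ℤ) : WithTop ℤ) = 0 := by simp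
  rw [h1] at h
  exact absurd hs0 (not_lt.2 h)

end Pool.Agent.X303.MC
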