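import Mathlib.Analysis.SpecialFunctions.Pow.Complex

set_option autoImplicit false

/-! # Denef's formula -/

namespace Pool.Agent.X303.MC

/-- The function `∑_S c_S ∏_{i ∈ S} (q - 1) q ^ (-N_i s - ν_i) / (1 - q ^ (-N_i s - ν_i))`, the sum over
all sets `S` of components: the formula of Denef for the Igusa zeta function of a polynomial in `n`
variables at a prime number `q` at which the resolution has good reduction; then
`c_S = q ^ (-n) #E_S°(𝔽_q)`, the number of the points of the reduction which lie on the components
of index `i ∈ S` and on no others. -/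
noncomputable def denefF (q : ℕ) {J : Type} [Fintype J] (ν N : J → ℕ) (c : Finset J → ℂ)
    (s : ℂ) : ℂ :=
  ∑ S : Finset J, c S * ∏ i ∈ S, ((q : ℂ) - 1) * (q : ℂ) ^ (-((N i : ℂ) * s + (ν i : ℂ))) /
    (1 - (q : ℂ) ^ (-((N i : ℂ) * s + (ν i : ℂ))))

end Pool.Agent.X303.MC
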