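import Pool.Agent.X303.MC.Padic
import Pool.Agent.Y228.RR.Top
import Pool.Agent.TH187.SA.Classes
import Pool.Agent.Y230.RS.Padic
import Pool.Agent.Y230.HS.Strong

set_option autoImplicit false
set_option linter.unusedSectionVars false
set_option linter.unusedVariables false

/-! # Denef's formula for products of powers of forms -/

namespace Pool.Agent.X303.MC

open Pool.Agent.W574.SM Pool.Agent.W574.LM Pool.Agent.W574.HS Pool.Agent.TH192.DT
  Pool.Agent.H628R4.TP Pool.Agent.TH187.SA Pool.Agent.Y231.RF Pool.Agent.Y228.RR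

variable {q : ℕ} [Fact q.Prime]

/-- at most one component, which gives a root -/
theorem order_one {J : Type} [Fintype J] (ν N : J → ℕ) (hν : ∀ i, 0 < ν i)
    (c : Finset J → ℂ) (Z : ℂ → ℂ) (hZ : MeromorphicOn Z Set.univ)
    (hI : ∀ s : ℂ, 0 < s.re → Z s = denefF q ν N c s) (s0 : ℂ) (b : Polynomial ℂ) (hb0 : b ≠ 0)
    (hroot : meromorphicOrderAt Z s0 < 0 → b.eval (s0.re : ℂ) = 0)
    (hM : ∀ S, c S ≠ 0 → Nat.card {i // i ∈ S ∧ 0 < N i ∧ s0.re = -((ν i : ℝ) / N i)} ≤ 1) :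
    ((-(b.rootMultiplicity (s0.re : ℂ) : ℤ) : ℤ) : WithTop ℤ) ≤ meromorphicOrderAt Z s0 := by
  by_cases hs : meromorphicOrderAt Z s0 < 0
  · refine le_trans ?_ (denef_order ν N hν c Z hZ hI s0 1 hM)
    have h2 : 0 < b.rootMultiplicity (s0.re : ℂ) :=
      (Polynomial.rootMultiplicity_pos hb0).2 (hroot hs)
    rw [WithTop.coe_le_coe]
    omega
  · refine le_trans ?_ (not_lt.1 hs)
    have : ((-(b.rootMultiplicity (s0.re : ℂ) : ℤ) : ℤ) : WithTop ℤ) ≤ ((0 : ℤ) : WithTop ℤ) := by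
      rw [WithTop.coe_le_coe]
      omega
    exact this

section

variable {σ T : Type} [Fintype σ] [DecidableEq σ] [Fintype T] [DecidableEq T] {κ : T → Type}
  [∀ t, Fintype (κ t)] [∀ t, DecidableEq (κ t)]

theorem padic_rees {I : Type} [Fintype I] (g : (t : T) → κ t → MvPolynomial σ ℂ)
    (hg : ∀ t, ∃ j, g t j ≠ 0) (a : T → ℕ) (k : I → ℕ) (m : I → T → ℕ)
    (c : Finset (I ⊕ T) → ℂ)
    (hE : ∀ i, 0 < ∑ t, a t * m i t → (∃ J, c J ≠ 0 ∧ Sum.inl i ∈ J) →
      FromRees g a 1 (k i + 1) (∑ t, a t * m i t))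
    (Z : ℂ → ℂ) (hZ : MeromorphicOn Z Set.univ)
    (hI : ∀ s : ℂ, 0 < s.re → Z s = denefF q (nuR k T) (mulR a m) c s) (s₀ : ℂ)
    (hs₀ : meromorphicOrderAt Z s₀ < 0) (b : Polynomial ℂ) (hb : IsBFunction (powProd a g) b) :
    b.eval (s₀.re : ℂ) = 0 := by
  obtain ⟨J, hJ, x, hx, hN, hre⟩ := denef_pole (nuR k T) (mulR a m) (nuR_pos k) c Z hZ hI s₀ hs₀
  have key : b.eval (-((nuR k T x : ℕ) : ℂ) / (mulR a m x : ℕ)) = 0 := by
    rcases x with i | t
    · have hpos : 0 < ∑ t, a t * m i t := hN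
      have ha : ∃ t, a t ≠ 0 := by
        obtain ⟨t, _, ht⟩ := Finset.exists_ne_zero_of_sum_ne_zero hpos.ne'
        exact ⟨t, left_ne_zero_of_mul ht⟩
      obtain ⟨H, hH, hHb⟩ := locEq_global a g b hb ha
      exact root_of_from a g b H hHb _ _ hpos ((hE i hpos ⟨J, hJ, hx⟩).congr hH)
    · have ht : 0 < a t := hN
      have h := (powData_global a g hg b hb).strict t 0 ht
      rw [Nat.cast_zero, add_zero] at h
      change b.eval (-((1 : ℕ) : ℂ) / (a t : ℕ)) = 0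
      rw [Nat.cast_one]
      exact h
  rw [hre]
  push_cast
  rw [← neg_div]
  exact key

end

section

variable {σ S T I : Type} [Fintype σ] [DecidableEq σ] [Fintype S] [DecidableEq S] [Fintype T]
  [DecidableEq T] [Fintype I] {κ : S → Type} [∀ s, Fintype (κ s)] [∀ s, DecidableEq (κ s)]

theorem nuA_pos' (G : I → Submodule ℂ (σ → ℂ)) (hG : ∀ i, G i ≠ ⊤) (x : I ⊕ T) :
    0 < nuA G T x := by
  rcases x with i | t
  · have h2 := Submodule.finrank_lt (hG i)
    rw [Module.finrank_fintype_fun_eq_card] at h2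
    change 0 < Fintype.card σ - Module.finrank ℂ (G i)
    omega
  · exact one_pos

/-- the roots, for the components which are Rees flats -/
theorem sub_root (c : (s : S) → κ s → σ → ℂ) (e : T → S → ℕ) (a : T → ℕ)
    (G : I → Submodule ℂ (σ → ℂ)) (b : Polynomial ℂ)
    (hb : PowData a (fun t => arrGen c (e t)) b) (x : I ⊕ T)
    (hx : 0 < mulA (fun s => zeros (c s)) e a G x)
    (hG : ∀ i, x = Sum.inl i → IsReesFlat (fun s => zeros (c s)) (Occurs e a) (G i)) :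
    b.eval (-((nuA G T x : ℕ) : ℂ) / (mulA (fun s => zeros (c s)) e a G x : ℕ)) = 0 := by
  rcases x with i | t
  · have h := pow_arr c e a (fun _ : Unit => G i) (fun _ => hG i rfl) b hb (Sum.inl ()) 0 hx
    rw [Nat.cast_zero, add_zero] at h
    exact h
  · have h := hb.strict t 0 hx
    rw [Nat.cast_zero, add_zero] at h
    change b.eval (-((1 : ℕ) : ℂ) / (a t : ℕ)) = 0
    rw [Nat.cast_one]
    exact h

theorem padic_sub (c : (s : S) → κ s → σ → ℂ) (hc : ∀ s, ∃ j, c s j ≠ 0) (e : T → S → ℕ)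
    (a : T → ℕ) (G : I → Submodule ℂ (σ → ℂ)) (hG0 : ∀ i, G i ≠ ⊤) (d : Finset (I ⊕ T) → ℂ)
    (hG : ∀ i, 0 < mulA (fun s => zeros (c s)) e a G (Sum.inl i) →
      (∃ J, d J ≠ 0 ∧ Sum.inl i ∈ J) → IsReesFlat (fun s => zeros (c s)) (Occurs e a) (G i))
    (Z : ℂ → ℂ) (hZ : MeromorphicOn Z Set.univ)
    (hI : ∀ s : ℂ, 0 < s.re →
      Z s = denefF q (nuA G T) (mulA (fun s => zeros (c s)) e a G) d s) (s₀ : ℂ)
    (hs₀ : meromorphicOrderAt Z s₀ < 0) (b : Polynomial ℂ)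
    (hb : IsBFunction (powProd a fun t => arrGen c (e t)) b) :
    b.eval (s₀.re : ℂ) = 0 := by
  obtain ⟨J, hJ, x, hx, hN, hre⟩ := denef_pole _ _ (nuA_pos' G hG0) d Z hZ hI s₀ hs₀
  have h := sub_root c e a G b (powData_global a _ (fun t => arrGen_ne c hc (e t)) b hb) x hN
    (fun i hi => by
      subst hi
      exact hG i hN ⟨J, hJ, hx⟩)
  rw [hre]
  push_cast
  rw [← neg_div]
  exact h

end

end Pool.Agent.X303.MC
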