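import Pool.Agent.X303.MC.Occ
import Pool.Agent.X303.MC.PadicRees

set_option autoImplicit false
set_option linter.unusedSectionVars false
set_option linter.unusedVariables false

/-! # Products of powers of forms over products of linear ideals: only the components which occur -/

namespace Pool.Agent.X303.MC

open Pool.Agent.W574.SM Pool.Agent.W574.LM Pool.Agent.W574.HS Pool.Agent.TH192.DT
  Pool.Agent.H628R4.TP Pool.Agent.TH187.SA Pool.Agent.Y228.RR

variable {σ S T I : Type} [Fintype σ] [DecidableEq σ] [Fintype S] [DecidableEq S] [Fintype T]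
  [DecidableEq T] [Fintype I] {κ : S → Type} [∀ s, Fintype (κ s)] [∀ s, DecidableEq (κ s)]

/-- motivic zeta functions, from the data for the powers -/
theorem sub_mot (c : (s : S) → κ s → σ → ℂ) (e : T → S → ℕ) (a : T → ℕ)
    (G : I → Submodule ℂ (σ → ℂ)) {R : Type} [CommRing R] (u : Rˣ)
    (χ : Finset {x // 0 < mulA (fun s => zeros (c s)) e a G x} → R)
    (hG : ∀ (i : I) (hi : 0 < mulA (fun s => zeros (c s)) e a G (Sum.inl i)),
      (∃ J, χ J ≠ 0 ∧ ⟨Sum.inl i, hi⟩ ∈ J) →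
      IsReesFlat (fun s => zeros (c s)) (Occurs e a) (G i)) :
    ∃ P : Finset (ℤ × ℤ), (∀ q ∈ P, q.1 < 0 ∧ 0 < q.2 ∧
      ∀ b : Polynomial ℂ, PowData a (fun t => arrGen c (e t)) b →
        b.eval ((q.1 : ℂ) / q.2) = 0) ∧
      dlZ u (nuA G T) (mulA (fun s => zeros (c s)) e a G) χ ∈ ratU u (P : Set (ℤ × ℤ)) := by
  obtain ⟨P, hP, h⟩ := exists_occ u (nuA G T) (mulA (fun s => zeros (c s)) e a G) χ
  refine ⟨P, fun q hq => ?_, h⟩
  obtain ⟨⟨x, hx⟩, hJ, rfl⟩ := (hP q).1 hq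
  refine ⟨?_, ?_, fun b hb => ?_⟩
  · have h1 : 0 < nuA G T x := by
      rcases x with i | t
      · exact codim_pos (hG i hx hJ)
      · exact one_pos
    change -((nuA G T x : ℕ) : ℤ) < 0
    omega
  · change (0 : ℤ) < (mulA (fun s => zeros (c s)) e a G x : ℕ)
    exact_mod_cast hx
  · have h2 := sub_root c e a G b hb x hx (fun i hi => by
      subst hi
      exact hG i hx hJ)
    push_cast at h2 ⊢
    exact h2

/-- topological zeta functions, from the data for the powers -/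
theorem sub_top (c : (s : S) → κ s → σ → ℂ) (e : T → S → ℕ) (a : T → ℕ)
    (G : I → Submodule ℂ (σ → ℂ)) (hG0 : ∀ i, G i ≠ ⊤) (χ : Finset (I ⊕ T) → ℤ)
    (hG : ∀ i, 0 < mulA (fun s => zeros (c s)) e a G (Sum.inl i) →
      (∃ J, χ J ≠ 0 ∧ Sum.inl i ∈ J) → IsReesFlat (fun s => zeros (c s)) (Occurs e a) (G i))
    (s₀ : ℂ) (hs : (topZ (nuA G T) (mulA (fun s => zeros (c s)) e a G) χ).denom.eval s₀ = 0)
    (b : Polynomial ℂ) (hb : PowData a (fun t => arrGen c (e t)) b) : b.eval s₀ = 0 := by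
  obtain ⟨J, hJ, x, hx, hN, rfl⟩ := pole_topZ' _ _ χ (nuA_pos' G hG0) s₀ hs
  exact sub_root c e a G b hb x hN (fun i hi => by
    subst hi
    exact hG i hN ⟨J, hJ, hx⟩)

end Pool.Agent.X303.MC
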