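import Pool.Agent.X303.MC.Visible

set_option autoImplicit false
set_option linter.unusedSectionVars false
set_option linter.unusedVariables false

/-! # The stronger form for ideals, with one condition for every value -/

namespace Pool.Agent.X303.MC

open Pool.Agent.W574.SM Pool.Agent.W574.HS Pool.Agent.H628R4.TP Pool.Agent.Y230.RS

/-- the multiplicities of the roots, at a complex number -/
theorem card_leC {σ ι J : Type} [Fintype σ] [DecidableEq σ] [Fintype ι] [Fintype J]
    (f : ι → MvPolynomial σ ℂ) (b' : Polynomial ℂ) (hb0 : b' ≠ 0) (hb : IsFunctionalEq f b')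
    (a k : J → ℕ) (x : ℂ) (S' : Set J)
    (hS : ∀ i ∈ S', 0 < a i ∧ ((k i + 1 : ℕ) : ℂ) + (a i : ℂ) * x = 0)
    (h : Seen f a k S') : Nat.card S' ≤ b'.rootMultiplicity x := by
  classical
  rcases h with ⟨p, hp, e, he, hek⟩ | ⟨h1, h2⟩
  · have h3 := prod_dvd_visible f b' hb a k S'.toFinset
      ⟨p, hp, e, by rw [Set.coe_toFinset]; exact he, fun i hi => hek i (Set.mem_toFinset.1 hi)⟩
    have h4 := (pow_card_dvd (S'.toFinset.filter fun i => 0 < a i) S'.toFinset
      (fun i hi => Finset.mem_filter.2 ⟨hi, (hS i (Set.mem_toFinset.1 hi)).1⟩)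
      (fun i => Polynomial.C ((k i + 1 : ℕ) : ℂ) + Polynomial.C (a i : ℂ) * Polynomial.X) x
      fun i hi => linear_dvd (a i) (k i + 1) x (hS i (Set.mem_toFinset.1 hi)).2).trans h3
    rw [Nat.card_eq_fintype_card, ← Set.toFinset_card]
    exact (Polynomial.le_rootMultiplicity_iff hb0).2 h4
  · by_cases hne : S'.Nonempty
    · obtain ⟨i, hi⟩ := hne
      have h3 : Nat.card S' ≤ 1 := by
        have : Subsingleton S' := Set.subsingleton_coe S' |>.2 h1
        exact Finite.card_le_one_iff_subsingleton.2 this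
      have h4 := root_of_fromRees f b' hb (a i) (k i) (h2 i hi) x (hS i hi).1 (hS i hi).2
      have h5 : 0 < b'.rootMultiplicity x := (Polynomial.rootMultiplicity_pos hb0).2 h4
      omega
    · rw [Set.not_nonempty_iff_eq_empty.1 hne]
      simp

/-- the order of the pole at `s0` -/
theorem top_order {σ ι J : Type} [Fintype σ] [DecidableEq σ] [Fintype ι] [Fintype J]
    [DecidableEq J] (f : ι → MvPolynomial σ ℂ) (b : Polynomial ℂ) (hb0 : b ≠ 0)
    (hb : IsFunctionalEq f b) (a k : J → ℕ) (χ : Finset J → ℤ) (s0 : ℂ)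
    (h : ∀ S, χ S ≠ 0 →
      Seen f a k {i | i ∈ S ∧ 0 < a i ∧ ((k i + 1 : ℕ) : ℂ) + (a i : ℂ) * s0 = 0}) :
    (topZeta a k χ).denom.rootMultiplicity s0 ≤ b.rootMultiplicity s0 := by
  refine (topZeta_le a k χ s0 _ fun S hS => ?_).rootMultiplicity_le
  refine le_trans (le_of_eq ?_) (card_leC f b hb0 hb a k s0 _ (fun i hi => hi.2) (h S hS))
  rw [Nat.card_eq_fintype_card, Fintype.card_subtype]
  congr 1
  ext i
  simp only [Finset.mem_filter, Finset.mem_univ, true_and, Set.mem_setOf_eq]

/-- a rational function whose poles are roots, with multiplicities -/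
theorem mul_poly (b : Polynomial ℂ) (hb0 : b ≠ 0) (R : RatFunc ℂ)
    (h : ∀ s0, R.denom.rootMultiplicity s0 ≤ b.rootMultiplicity s0) :
    ∃ P : Polynomial ℂ, algebraMap (Polynomial ℂ) (RatFunc ℂ) b * R =
      algebraMap (Polynomial ℂ) (RatFunc ℂ) P := by
  classical
  have h1 : R.denom ∣ b := by
    rw [(IsAlgClosed.splits R.denom).dvd_iff_roots_le_roots R.denom_ne_zero hb0,
      Multiset.le_iff_count]
    intro x
    rw [Polynomial.count_roots, Polynomial.count_roots]
    exact h x
  obtain ⟨c, hc⟩ := h1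
  refine ⟨c * R.num, ?_⟩
  have hden : algebraMap (Polynomial ℂ) (RatFunc ℂ) R.denom ≠ 0 := by
    rw [Ne, map_eq_zero_iff _ (IsFractionRing.injective (Polynomial ℂ) (RatFunc ℂ))]
    exact R.denom_ne_zero
  have hR := RatFunc.num_div_denom R
  rw [div_eq_iff hden] at hR
  rw [hc, map_mul, map_mul, hR]
  ring

end Pool.Agent.X303.MC
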