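import Pool.Agent.X303.MC.PadicRees

set_option autoImplicit false
set_option linter.unusedSectionVars false
set_option linter.unusedVariables false

/-! # Topological zeta functions: orders of the poles, one value at a time -/

namespace Pool.Agent.X303.MC

open MvPowerSeries Pool.Agent.W574.SM Pool.Agent.W574.LM Pool.Agent.W574.HS Pool.Agent.TH192.DT
  Pool.Agent.H628R4.TP Pool.Agent.TH187.SA Pool.Agent.Y231.RF Pool.Agent.Y228.RR
open Pool.Agent.Y230.RS (PoleLE poleLE_poly poleLE_sum poleLE_prod linear_le)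

theorem topZ_le {ι : Type} [Fintype ι] (ν N : ι → ℕ) (χ : Finset ι → ℤ) (hν : ∀ i, 0 < ν i)
    (s0 : ℂ) (M : ℕ)
    (hM : ∀ S, χ S ≠ 0 → Nat.card {i // i ∈ S ∧ 0 < N i ∧ (ν i : ℂ) + N i * s0 = 0} ≤ M) :
    PoleLE (topZ ν N χ) s0 M := by
  classical
  rw [topZ]
  refine poleLE_sum _ _ _ _ fun S _ => ?_
  by_cases hc : χ S = 0
  · rw [hc, Int.cast_zero, map_zero, zero_mul]
    have := poleLE_poly 0 s0 M
    rwa [map_zero] at this
  have h1 : (RatFunc.C ((χ S : ℤ) : ℂ) : RatFunc ℂ) =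
      algebraMap (Polynomial ℂ) (RatFunc ℂ) (Polynomial.C (χ S : ℂ)) := by simp
  rw [h1]
  refine ((poleLE_poly _ s0 0).mul ?_).mono (Nat.zero_add _).le
  have h1 := poleLE_prod S (fun i => ((N i : RatFunc ℂ) * RatFunc.X + (ν i : RatFunc ℂ))⁻¹)
    s0 (fun i => if 0 < N i ∧ (ν i : ℂ) + N i * s0 = 0 then 1 else 0)
    fun i _ => by
      obtain ⟨k, hk⟩ : ∃ k, ν i = k + 1 := ⟨ν i - 1, by have := hν i; omega⟩
      have h2 := linear_le (N i) k s0
      have h3 : 1 / ((N i : RatFunc ℂ) * RatFunc.X + (k : RatFunc ℂ) + 1) =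
          ((N i : RatFunc ℂ) * RatFunc.X + (ν i : RatFunc ℂ))⁻¹ := by
        rw [one_div, hk]
        congr 1
        push_cast
        ring
      rw [h3, ← hk] at h2
      exact h2
  refine h1.mono ?_
  rw [← Finset.sum_filter, Finset.sum_const, smul_eq_mul, mul_one]
  refine le_trans (le_of_eq ?_) (hM S hc)
  rw [Nat.card_eq_fintype_card, Fintype.card_subtype]
  congr 1
  ext i
  simp only [Finset.mem_filter, Finset.mem_univ, true_and]

/-- A pole comes from a component of a stratum which occurs. -/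
theorem topZ_pole {ι : Type} [Fintype ι] (ν N : ι → ℕ) (χ : Finset ι → ℤ) (hν : ∀ i, 0 < ν i)
    (s0 : ℂ) (h : (topZ ν N χ).denom.eval s0 = 0) :
    ∃ J, χ J ≠ 0 ∧ ∃ i ∈ J, 0 < N i ∧ (ν i : ℂ) + N i * s0 = 0 := by
  by_contra hcon
  push Not at hcon
  have h1 := (topZ_le ν N χ hν s0 0 fun S hS => by
    rw [Nat.le_zero, Nat.card_eq_zero]
    left
    exact ⟨fun i => hcon S hS i.1 i.2.1 i.2.2.1 i.2.2.2⟩).rootMultiplicity_le
  have h2 := (Polynomial.rootMultiplicity_pos (RatFunc.denom_ne_zero _)).2 h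
  omega

/-- at most one component, which gives a root -/
theorem topZ_one {ι : Type} [Fintype ι] (ν N : ι → ℕ) (χ : Finset ι → ℤ) (hν : ∀ i, 0 < ν i)
    (s0 : ℂ) (b : Polynomial ℂ) (hb0 : b ≠ 0)
    (hroot : (topZ ν N χ).denom.eval s0 = 0 → b.eval s0 = 0)
    (hM : ∀ S, χ S ≠ 0 → Nat.card {i // i ∈ S ∧ 0 < N i ∧ (ν i : ℂ) + N i * s0 = 0} ≤ 1) :
    (topZ ν N χ).denom.rootMultiplicity s0 ≤ b.rootMultiplicity s0 := by
  by_cases h : (topZ ν N χ).denom.eval s0 = 0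
  · have h1 := (topZ_le ν N χ hν s0 1 hM).rootMultiplicity_le
    have h2 : 0 < b.rootMultiplicity s0 := (Polynomial.rootMultiplicity_pos hb0).2 (hroot h)
    omega
  · rw [Polynomial.rootMultiplicity_eq_zero h]
    exact Nat.zero_le _

theorem neg_div_of {ν N : ℕ} {s : ℂ} (hN : 0 < N) (h : (ν : ℂ) + N * s = 0) :
    s = -(ν : ℂ) / N := by
  have hN' : (N : ℂ) ≠ 0 := by exact_mod_cast hN.ne'
  rw [eq_div_iff hN']
  linear_combination h

section

variable {σ T : Type} [Fintype σ] [DecidableEq σ] [Fintype T] [DecidableEq T] {κ : T → Type}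
  [∀ t, Fintype (κ t)] [∀ t, DecidableEq (κ t)]

theorem rees_pole_global {I : Type} [Fintype I] (g : (t : T) → κ t → MvPolynomial σ ℂ)
    (hg : ∀ t, ∃ j, g t j ≠ 0) (a : T → ℕ) (k : I → ℕ) (m : I → T → ℕ)
    (χ : Finset (I ⊕ T) → ℤ) (s₀ : ℂ)
    (hE : ∀ i, 0 < ∑ t, a t * m i t → ((k i + 1 : ℕ) : ℂ) + (∑ t, a t * m i t : ℕ) * s₀ = 0 →
      (∃ J, χ J ≠ 0 ∧ Sum.inl i ∈ J) → FromRees g a 1 (k i + 1) (∑ t, a t * m i t))
    (hs : (topZ (nuR k T) (mulR a m) χ).denom.eval s₀ = 0)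
    (b : Polynomial ℂ) (hb : IsBFunction (powProd a g) b) : b.eval s₀ = 0 := by
  obtain ⟨J, hJ, x, hx, hN, h0⟩ := topZ_pole _ _ χ (nuR_pos k) s₀ hs
  rcases x with i | t
  · have hpos : 0 < ∑ t, a t * m i t := hN
    have ha : ∃ t, a t ≠ 0 := by
      obtain ⟨t, _, ht⟩ := Finset.exists_ne_zero_of_sum_ne_zero hpos.ne'
      exact ⟨t, left_ne_zero_of_mul ht⟩
    have h0' : ((k i + 1 : ℕ) : ℂ) + (∑ t, a t * m i t : ℕ) * s₀ = 0 := h0
    obtain ⟨H, hH, hHb⟩ := locEq_global a g b hb ha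
    have h := root_of_from a g b H hHb _ _ hpos ((hE i hpos h0' ⟨J, hJ, hx⟩).congr hH)
    rw [neg_div_of hpos h0']
    exact h
  · have ht : 0 < a t := hN
    have h := (powData_global a g hg b hb).strict t 0 ht
    rw [Nat.cast_zero, add_zero] at h
    have h0' : ((1 : ℕ) : ℂ) + (a t : ℕ) * s₀ = 0 := h0
    rw [neg_div_of ht h0', Nat.cast_one]
    exact h

theorem rees_pole_local {I : Type} [Fintype I] (g : (t : T) → κ t → MvPolynomial σ ℂ)
    (hg : ∀ t, ∃ j, g t j ≠ 0) (a : T → ℕ) (k : I → ℕ) (m : I → T → ℕ)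
    (χ : Finset (I ⊕ T) → ℤ) (s₀ : ℂ)
    (hE : ∀ i, 0 < ∑ t, a t * m i t → ((k i + 1 : ℕ) : ℂ) + (∑ t, a t * m i t : ℕ) * s₀ = 0 →
      (∃ J, χ J ≠ 0 ∧ Sum.inl i ∈ J) →
      ∀ H : MvPolynomial σ ℂ, MvPolynomial.constantCoeff H ≠ 0 →
        FromRees g a H (k i + 1) (∑ t, a t * m i t))
    (hs : (topZ (nuR k T) (mulR a m) χ).denom.eval s₀ = 0)
    (b : Polynomial ℂ) (hb : IsLocalBFunction (powProd a g) b) : b.eval s₀ = 0 := by
  obtain ⟨J, hJ, x, hx, hN, h0⟩ := topZ_pole _ _ χ (nuR_pos k) s₀ hs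
  rcases x with i | t
  · have hpos : 0 < ∑ t, a t * m i t := hN
    have ha : ∃ t, a t ≠ 0 := by
      obtain ⟨t, _, ht⟩ := Finset.exists_ne_zero_of_sum_ne_zero hpos.ne'
      exact ⟨t, left_ne_zero_of_mul ht⟩
    have h0' : ((k i + 1 : ℕ) : ℂ) + (∑ t, a t * m i t : ℕ) * s₀ = 0 := h0
    obtain ⟨H, hH, hHb⟩ := (powData_local a g hg b hb).ideal ha
    have h := root_of_from a g b H hHb _ _ hpos (hE i hpos h0' ⟨J, hJ, hx⟩ H hH)
    rw [neg_div_of hpos h0']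
    exact h
  · have ht : 0 < a t := hN
    have h := (powData_local a g hg b hb).strict t 0 ht
    rw [Nat.cast_zero, add_zero] at h
    have h0' : ((1 : ℕ) : ℂ) + (a t : ℕ) * s₀ = 0 := h0
    rw [neg_div_of ht h0', Nat.cast_one]
    exact h

/-- The residue class modulo `ℤ` of the number `-ν / N` comes from a Rees divisor `E` of the product
of the ideals `I_t` with `a t ≠ 0`, at a general point of `E` over a point at which `H` does not
vanish: `ν / N - (k_E + 1 + l) / N_E` is an integer, where `k_E` is the multiplicity of `E` in the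
relative canonical divisor, `N_E` is the order of `∏ t, I_t ^ a t` along `E`, and `l < N_E` is the order
along `E` of a polynomial `p`. If there is a polynomial of the order `1` along `E`, all the residue
classes of the numbers with the denominator `N_E` are of this kind. -/
def FromReesMod (g : (t : T) → κ t → MvPolynomial σ ℂ) (a : T → ℕ) (H : MvPolynomial σ ℂ)
    (ν N : ℕ) : Prop :=
  ∃ E : Chart g, (E.IsRees fun t => a t ≠ 0) ∧ constantCoeff (MvPolynomial.aeval E.ξ H) ≠ 0 ∧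
    ∃ (l : ℕ) (p : MvPolynomial σ ℂ), l < E.mul a ∧
      (∃ U : MvPowerSeries σ ℂ, constantCoeff U ≠ 0 ∧
        MvPolynomial.aeval E.ξ p = X E.z ^ l * U) ∧
      ∃ z : ℤ, (ν : ℤ) * E.mul a = (E.k + 1 + l) * N + z * (N * E.mul a)

theorem root_of_fromMod (a : T → ℕ) (g : (t : T) → κ t → MvPolynomial σ ℂ) (b : Polynomial ℂ)
    (H : MvPolynomial σ ℂ) (hb : IsLocEq H (prodFam fun q : Σ t, Fin (a t) => g q.1) b)
    (ν N : ℕ) (hN : 0 < N) (h : FromReesMod g a H ν N) :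
    ∃ z : ℤ, b.eval (-(ν : ℂ) / N + z) = 0 := by
  obtain ⟨E, hE, hH, l, p, hl, hp, z, he⟩ := h
  have h1 := rees_prod a g b H hb E hE hH l hl p hp
  refine ⟨z, ?_⟩
  have h2 : (-(ν : ℂ) / N + z) = -((E.k : ℂ) + 1 + l) / (E.mul a : ℕ) := by
    have hN0 : (N : ℂ) ≠ 0 := Nat.cast_ne_zero.2 hN.ne'
    have hE0 : ((E.mul a : ℕ) : ℂ) ≠ 0 := Nat.cast_ne_zero.2 (by omega)
    have he' : (ν : ℂ) * (E.mul a : ℕ) = (E.k + 1 + l) * N + z * (N * (E.mul a : ℕ)) := by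
      exact_mod_cast he
    rw [div_add' _ _ _ hN0, div_eq_div_iff hN0 hE0]
    linear_combination -he'
  rw [h2]
  exact h1

theorem FromReesMod.congr {g : (t : T) → κ t → MvPolynomial σ ℂ} {a : T → ℕ}
    {H H' : MvPolynomial σ ℂ} {ν N : ℕ} (h : FromReesMod g a H ν N)
    (hH : ∀ ξ : σ → MvPowerSeries σ ℂ, constantCoeff (MvPolynomial.aeval ξ H') ≠ 0) :
    FromReesMod g a H' ν N := by
  obtain ⟨E, hE, _, h⟩ := h
  exact ⟨E, hE, hH _, h⟩

theorem weak_global {I : Type} [Fintype I] (g : (t : T) → κ t → MvPolynomial σ ℂ)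
    (hg : ∀ t, ∃ j, g t j ≠ 0) (a : T → ℕ) (k : I → ℕ) (m : I → T → ℕ)
    (χ : Finset (I ⊕ T) → ℤ) (s₀ : ℂ)
    (hE : ∀ i, 0 < ∑ t, a t * m i t → ((k i + 1 : ℕ) : ℂ) + (∑ t, a t * m i t : ℕ) * s₀ = 0 →
      (∃ J, χ J ≠ 0 ∧ Sum.inl i ∈ J) → FromReesMod g a 1 (k i + 1) (∑ t, a t * m i t))
    (hs : (topZ (nuR k T) (mulR a m) χ).denom.eval s₀ = 0)
    (b : Polynomial ℂ) (hb : IsBFunction (powProd a g) b) : ∃ z : ℤ, b.eval (s₀ + z) = 0 := by
  obtain ⟨J, hJ, x, hx, hN, h0⟩ := topZ_pole _ _ χ (nuR_pos k) s₀ hs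
  rcases x with i | t
  · have hpos : 0 < ∑ t, a t * m i t := hN
    have ha : ∃ t, a t ≠ 0 := by
      obtain ⟨t, _, ht⟩ := Finset.exists_ne_zero_of_sum_ne_zero hpos.ne'
      exact ⟨t, left_ne_zero_of_mul ht⟩
    have h0' : ((k i + 1 : ℕ) : ℂ) + (∑ t, a t * m i t : ℕ) * s₀ = 0 := h0
    obtain ⟨H, hH, hHb⟩ := locEq_global a g b hb ha
    have h := root_of_fromMod a g b H hHb _ _ hpos ((hE i hpos h0' ⟨J, hJ, hx⟩).congr hH)
    rw [neg_div_of hpos h0']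
    exact h
  · have ht : 0 < a t := hN
    have h := (powData_global a g hg b hb).strict t 0 ht
    rw [Nat.cast_zero, add_zero] at h
    have h0' : ((1 : ℕ) : ℂ) + (a t : ℕ) * s₀ = 0 := h0
    refine ⟨0, ?_⟩
    rw [neg_div_of ht h0', Nat.cast_one, Int.cast_zero, add_zero]
    exact h

theorem weak_local {I : Type} [Fintype I] (g : (t : T) → κ t → MvPolynomial σ ℂ)
    (hg : ∀ t, ∃ j, g t j ≠ 0) (a : T → ℕ) (k : I → ℕ) (m : I → T → ℕ)
    (χ : Finset (I ⊕ T) → ℤ) (s₀ : ℂ)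
    (hE : ∀ i, 0 < ∑ t, a t * m i t → ((k i + 1 : ℕ) : ℂ) + (∑ t, a t * m i t : ℕ) * s₀ = 0 →
      (∃ J, χ J ≠ 0 ∧ Sum.inl i ∈ J) →
      ∀ H : MvPolynomial σ ℂ, MvPolynomial.constantCoeff H ≠ 0 →
        FromReesMod g a H (k i + 1) (∑ t, a t * m i t))
    (hs : (topZ (nuR k T) (mulR a m) χ).denom.eval s₀ = 0)
    (b : Polynomial ℂ) (hb : IsLocalBFunction (powProd a g) b) :
    ∃ z : ℤ, b.eval (s₀ + z) = 0 := by
  obtain ⟨J, hJ, x, hx, hN, h0⟩ := topZ_pole _ _ χ (nuR_pos k) s₀ hs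
  rcases x with i | t
  · have hpos : 0 < ∑ t, a t * m i t := hN
    have ha : ∃ t, a t ≠ 0 := by
      obtain ⟨t, _, ht⟩ := Finset.exists_ne_zero_of_sum_ne_zero hpos.ne'
      exact ⟨t, left_ne_zero_of_mul ht⟩
    have h0' : ((k i + 1 : ℕ) : ℂ) + (∑ t, a t * m i t : ℕ) * s₀ = 0 := h0
    obtain ⟨H, hH, hHb⟩ := (powData_local a g hg b hb).ideal ha
    have h := root_of_fromMod a g b H hHb _ _ hpos (hE i hpos h0' ⟨J, hJ, hx⟩ H hH)
    rw [neg_div_of hpos h0']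
    exact h
  · have ht : 0 < a t := hN
    have h := (powData_local a g hg b hb).strict t 0 ht
    rw [Nat.cast_zero, add_zero] at h
    have h0' : ((1 : ℕ) : ℂ) + (a t : ℕ) * s₀ = 0 := h0
    refine ⟨0, ?_⟩
    rw [neg_div_of ht h0', Nat.cast_one, Int.cast_zero, add_zero]
    exact h

end

end Pool.Agent.X303.MC
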