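import Pool.Agent.X303.MC.Padic
import Pool.Agent.Y230.RS.Padic
import Pool.Agent.Y230.HS.Strong

set_option autoImplicit false
set_option linter.unusedSectionVars false
set_option linter.unusedVariables false

/-! # Denef's formula for one form over an ideal with visible strata: the orders of the poles -/

namespace Pool.Agent.X303.MC

open Pool.Agent.W574.SM Pool.Agent.W574.HS Pool.Agent.H628R4.TP Pool.Agent.Y230.RS

/-- The divisors with the index in `S'` pass through a visible point, or there is at most one of them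
and its number comes from a Rees divisor. -/
def Seen {σ ι J : Type} [Fintype σ] [DecidableEq σ] [Fintype ι] (f : ι → MvPolynomial σ ℂ)
    (a k : J → ℕ) (S' : Set J) : Prop :=
  (∃ p : PointChart f, p.IsVisible ∧ ∃ e : J → σ, Set.InjOn e S' ∧
    ∀ i ∈ S', p.a (e i) = a i ∧ p.k (e i) = k i) ∨
  (S'.Subsingleton ∧ ∀ i ∈ S', Pool.Agent.Y230.RS.FromRees f (a i) (k i))

variable {q : ℕ} [Fact q.Prime]

theorem linear_of_re (a k : ℕ) (ha : 0 < a) (x : ℝ) (h : x = -(((k + 1 : ℕ) : ℝ) / a)) :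
    ((k + 1 : ℕ) : ℂ) + (a : ℂ) * (x : ℂ) = 0 := by
  have ha' : (a : ℝ) ≠ 0 := by exact_mod_cast ha.ne'
  have h1 : ((k + 1 : ℕ) : ℝ) + (a : ℝ) * x = 0 := by
    rw [h]
    field_simp
    ring
  exact_mod_cast h1

/-- the multiplicities of the roots -/
theorem card_le {σ ι J : Type} [Fintype σ] [DecidableEq σ] [Fintype ι] [Fintype J]
    (f : ι → MvPolynomial σ ℂ) (b' : Polynomial ℂ) (hb0 : b' ≠ 0) (hb : IsFunctionalEq f b')
    (a k : J → ℕ) (x : ℝ) (S' : Set J) (hS : ∀ i ∈ S', 0 < a i ∧ x = -(((k i + 1 : ℕ) : ℝ) / a i))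
    (h : Seen f a k S') : Nat.card S' ≤ b'.rootMultiplicity (x : ℂ) := by
  classical
  rcases h with ⟨p, hp, e, he, hek⟩ | ⟨h1, h2⟩
  · have h3 := prod_dvd_visible f b' hb a k S'.toFinset
      ⟨p, hp, e, by rw [Set.coe_toFinset]; exact he, fun i hi => hek i (Set.mem_toFinset.1 hi)⟩
    have h4 := (pow_card_dvd (S'.toFinset.filter fun i => 0 < a i) S'.toFinset
      (fun i hi => Finset.mem_filter.2 ⟨hi, (hS i (Set.mem_toFinset.1 hi)).1⟩)
      (fun i => Polynomial.C ((k i + 1 : ℕ) : ℂ) + Polynomial.C (a i : ℂ) * Polynomial.X) (x : ℂ)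
      fun i hi => linear_dvd (a i) (k i + 1) (x : ℂ)
        (linear_of_re (a i) (k i) (hS i (Set.mem_toFinset.1 hi)).1 x
          (hS i (Set.mem_toFinset.1 hi)).2)).trans h3
    rw [Nat.card_eq_fintype_card, ← Set.toFinset_card]
    exact (Polynomial.le_rootMultiplicity_iff hb0).2 h4
  · by_cases hne : S'.Nonempty
    · obtain ⟨i, hi⟩ := hne
      have h3 : Nat.card S' ≤ 1 := by
        have : Subsingleton S' := Set.subsingleton_coe S' |>.2 h1
        exact Finite.card_le_one_iff_subsingleton.2 this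
      have h4 := root_of_fromRees f b' hb (a i) (k i) (h2 i hi) (x : ℂ) (hS i hi).1
        (linear_of_re (a i) (k i) (hS i hi).1 x (hS i hi).2)
      have h5 : 0 < b'.rootMultiplicity (x : ℂ) := (Polynomial.rootMultiplicity_pos hb0).2 h4
      omega
    · rw [Set.not_nonempty_iff_eq_empty.1 hne]
      simp

theorem visible_order {σ ι J : Type} [Fintype σ] [DecidableEq σ] [Fintype ι] [DecidableEq ι]
    [Fintype J] (f : ι → MvPolynomial σ ℂ) (hf : ∃ j, f j ≠ 0) (a k : J → ℕ)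
    (c : Finset (J ⊕ Unit) → ℂ) (Z : ℂ → ℂ) (hZ : MeromorphicOn Z Set.univ)
    (hI : ∀ s : ℂ, 0 < s.re → Z s = denefF q (Sum.elim (fun i => k i + 1) fun _ => 1)
      (Sum.elim a fun _ => 1) c s) (s₀ : ℂ)
    (hE : ∀ S, c S ≠ 0 →
      Seen f a k {i | Sum.inl i ∈ S ∧ 0 < a i ∧ s₀.re = -(((k i + 1 : ℕ) : ℝ) / a i)})
    (b : Polynomial ℂ) (hb0 : b ≠ 0) (hb : IsBFunction (univ f) b) :
    ((-(b.rootMultiplicity (s₀.re : ℂ) : ℤ) : ℤ) : WithTop ℤ) ≤ meromorphicOrderAt Z s₀ := by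
  classical
  obtain ⟨b', rfl, hb'⟩ := Pool.Agent.Y230.HS.functionalEq_of_univ_strong f b hf hb
  have hb'0 : b' ≠ 0 := right_ne_zero_of_mul hb0
  have hν : ∀ x : J ⊕ Unit, 0 < Sum.elim (fun i => k i + 1) (fun _ => 1) x := by
    rintro (i | _)
    · exact Nat.succ_pos _
    · exact one_pos
  refine denef_order _ _ hν c Z hZ hI s₀ _ fun S hS => ?_
  have h1 := card_le f b' hb'0 hb' a k s₀.re _ (fun i hi => hi.2) (hE S hS)
  rw [Polynomial.rootMultiplicity_mul hb0]
  -- the components of `J` and the strict transform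
  set A : Set (J ⊕ Unit) := {x | x ∈ S ∧ 0 < Sum.elim a (fun _ => 1) x ∧
    s₀.re = -((Sum.elim (fun i => k i + 1) (fun _ => 1) x : ℕ) / (Sum.elim a (fun _ => 1) x : ℕ) : ℝ)}
    with hA
  set B : Set J := {i | Sum.inl i ∈ S ∧ 0 < a i ∧ s₀.re = -(((k i + 1 : ℕ) : ℝ) / a i)} with hB
  set U : Set Unit := {x | Sum.inr x ∈ A} with hU
  have h2 : A ⊆ Sum.inl '' B ∪ Sum.inr '' U := by
    rintro (i | x) hx
    · exact Or.inl ⟨i, hx, rfl⟩
    · exact Or.inr ⟨x, hx, rfl⟩
  have h3 : A.ncard ≤ B.ncard + U.ncard := by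
    refine (Set.ncard_le_ncard h2 (Set.toFinite _)).trans ((Set.ncard_union_le _ _).trans ?_)
    exact Nat.add_le_add (Set.ncard_image_le (Set.toFinite _))
      (Set.ncard_image_le (Set.toFinite _))
  have h4 : U.ncard ≤ (Polynomial.X + 1 : Polynomial ℂ).rootMultiplicity (s₀.re : ℂ) := by
    by_cases hne : U.Nonempty
    · obtain ⟨x, hx⟩ := hne
      have h5 : s₀.re = -1 := by
        have h6 := hx.2.2
        simpa using h6
      have h6 : U.ncard ≤ 1 := by
        have h7 := Set.ncard_le_card U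
        simpa using h7
      have h7 : 0 < (Polynomial.X + 1 : Polynomial ℂ).rootMultiplicity (s₀.re : ℂ) := by
        refine (Polynomial.rootMultiplicity_pos (left_ne_zero_of_mul hb0)).2 ?_
        rw [Polynomial.IsRoot, h5]
        simp
      omega
    · rw [Set.not_nonempty_iff_eq_empty.1 hne]
      simp
  have h5 : Nat.card {i // i ∈ S ∧ 0 < Sum.elim a (fun _ => 1) i ∧
      s₀.re = -((Sum.elim (fun i => k i + 1) (fun _ => 1) i : ℕ) /
        (Sum.elim a (fun _ => 1) i : ℕ) : ℝ)} = A.ncard := rfl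
  rw [h5]
  have h6 : B.ncard ≤ b'.rootMultiplicity (s₀.re : ℂ) := h1
  omega

end Pool.Agent.X303.MC
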